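import Pool.Agent.H5.BP.Stm

/-!
# Project BP, module A1: `τ_a ∘ f` is a finite product of Blaschke factors
-/

set_option autoImplicit false

namespace Pool.Agent.H95.BP

open Complex Metric Set Filter Topology Pool.Agent.H5.BP

/-- the basic identity -/
theorem normSq_id (w z : ℂ) : normSq (1 - (starRingEnd ℂ) w * z) - normSq (z - w) =
    (1 - normSq z) * (1 - normSq w) := by
  simp only [normSq_apply, sub_re, sub_im, one_re, one_im, mul_re, mul_im, conj_re, conj_im]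
  ring

/-- the denominators do not vanish -/
theorem den_ne {w z : ℂ} (hw : ‖w‖ < 1) (hz : ‖z‖ ≤ 1) : 1 - (starRingEnd ℂ) w * z ≠ 0 := by
  intro h
  have h1 : (starRingEnd ℂ) w * z = 1 := (sub_eq_zero.mp h).symm
  have h2 : ‖(starRingEnd ℂ) w * z‖ = 1 := by rw [h1]; simp
  rw [norm_mul, RCLike.norm_conj] at h2
  have : ‖w‖ * ‖z‖ ≤ ‖w‖ * 1 := mul_le_mul_of_nonneg_left hz (norm_nonneg _)
  linarith

theorem normSq_le {z : ℂ} (hz : ‖z‖ ≤ 1) : normSq z ≤ 1 := by
  rw [normSq_eq_norm_sq]; nlinarith [norm_nonneg z]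

theorem normSq_lt {z : ℂ} (hz : ‖z‖ < 1) : normSq z < 1 := by
  rw [normSq_eq_norm_sq]; nlinarith [norm_nonneg z]

theorem tau_uni {w z : ℂ} (hw : ‖w‖ < 1) (hz : ‖z‖ = 1) : ‖tau w z‖ = 1 := by
  have h1 := normSq_id w z
  have h2 : normSq z = 1 := by rw [normSq_eq_norm_sq, hz]; norm_num
  rw [h2, sub_self, zero_mul, sub_eq_zero, normSq_eq_norm_sq, normSq_eq_norm_sq] at h1
  have h3 : ‖1 - (starRingEnd ℂ) w * z‖ = ‖z - w‖ :=
    (pow_left_inj₀ (norm_nonneg _) (norm_nonneg _) two_ne_zero).mp h1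
  have h4 : ‖1 - (starRingEnd ℂ) w * z‖ ≠ 0 := norm_ne_zero_iff.mpr (den_ne hw hz.le)
  rw [tau, norm_div, ← h3, div_self h4]

theorem tau_lt {w z : ℂ} (hw : ‖w‖ < 1) (hz : ‖z‖ < 1) : ‖tau w z‖ < 1 := by
  have h1 := normSq_id w z
  have h2 : 0 < (1 - normSq z) * (1 - normSq w) :=
    mul_pos (by have := normSq_lt hz; linarith) (by have := normSq_lt hw; linarith)
  rw [← h1, sub_pos, normSq_eq_norm_sq, normSq_eq_norm_sq] at h2
  have h3 : ‖z - w‖ < ‖1 - (starRingEnd ℂ) w * z‖ := lt_of_pow_lt_pow_left₀ 2 (norm_nonneg _) h2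
  have h4 : 0 < ‖1 - (starRingEnd ℂ) w * z‖ := norm_pos_iff.mpr (den_ne hw hz.le)
  rw [tau, norm_div, div_lt_one h4]; exact h3

/-- the maximum principle on the closed disk -/
theorem max_le {g : ℂ → ℂ} (hg : AnalyticOnNhd ℂ g (closedBall 0 1)) (hu : ∀ z, ‖z‖ = 1 → ‖g z‖ = 1) :
    ∀ z, ‖z‖ ≤ 1 → ‖g z‖ ≤ 1 := by
  intro z hz
  have hcl : closure (ball (0 : ℂ) 1) = closedBall 0 1 := closure_ball 0 one_ne_zero
  refine Complex.norm_le_of_forall_mem_frontier_norm_le (U := ball (0 : ℂ) 1) isBounded_ball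
    (DifferentiableOn.diffContOnCl (by rw [hcl]; exact hg.differentiableOn)) ?_
    (by rw [hcl]; simpa using hz)
  intro x hx
  rw [frontier_ball 0 one_ne_zero, mem_sphere_zero_iff_norm] at hx
  exact (hu x hx).le

/-- the zero-free case -/
theorem const_of_ne {g : ℂ → ℂ} (hg : AnalyticOnNhd ℂ g (closedBall 0 1))
    (hu : ∀ z, ‖z‖ = 1 → ‖g z‖ = 1) (h0 : ∀ z, ‖z‖ ≤ 1 → g z ≠ 0) :
    ‖g 0‖ = 1 ∧ ∀ z, ‖z‖ ≤ 1 → g z = g 0 := by
  have hcl : closure (ball (0 : ℂ) 1) = closedBall 0 1 := closure_ball 0 one_ne_zero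
  have h1 := max_le hg hu
  have hgi : AnalyticOnNhd ℂ (fun z => (g z)⁻¹) (closedBall 0 1) :=
    fun z hz => (hg z hz).inv (h0 z (by simpa using hz))
  have h2 := max_le hgi (fun z hz => by simp [norm_inv, hu z hz])
  have h3 : ∀ z, ‖z‖ ≤ 1 → ‖g z‖ = 1 := by
    intro z hz
    refine le_antisymm (h1 z hz) ?_
    have h4 := h2 z hz
    simp only [norm_inv] at h4
    have h5 : 0 < ‖g z‖ := norm_pos_iff.mpr (h0 z hz)
    exact (inv_le_one₀ h5).mp h4
  refine ⟨h3 0 (by simp), ?_⟩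
  have h6 : EqOn g (Function.const ℂ (g 0)) (closure (ball (0 : ℂ) 1)) := by
    refine Complex.eqOn_closure_of_isPreconnected_of_isMaxOn_norm (convex_ball 0 1).isPreconnected
      isOpen_ball (DifferentiableOn.diffContOnCl (by rw [hcl]; exact hg.differentiableOn))
      (mem_ball_self one_pos) ?_
    intro z hz
    change ‖g z‖ ≤ ‖g 0‖
    rw [h3 0 (by simp), h3 z (by simpa using (mem_ball_zero_iff.mp hz).le)]
  intro z hz
  have := h6 (show z ∈ closure (ball (0 : ℂ) 1) by rw [hcl]; simpa using hz)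
  simpa using this

/-- division by a Blaschke factor -/
theorem divide {g : ℂ → ℂ} (hg : AnalyticOnNhd ℂ g (closedBall 0 1))
    (hu : ∀ z, ‖z‖ = 1 → ‖g z‖ = 1) {w : ℂ} (hw : ‖w‖ < 1) (hz : g w = 0) :
    ∃ g₂ : ℂ → ℂ, AnalyticOnNhd ℂ g₂ (closedBall 0 1) ∧ (∀ z, ‖z‖ = 1 → ‖g₂ z‖ = 1) ∧
      ∀ z, ‖z‖ ≤ 1 → g z = tau w z * g₂ z := by
  have hd : AnalyticOnNhd ℂ (dslope g w) (closedBall 0 1) := by
    have ho : IsOpen {x | AnalyticAt ℂ g x} := isOpen_analyticAt ℂ g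
    have hwU : w ∈ {x | AnalyticAt ℂ g x} := hg w (by simpa using hw.le)
    have h1 : DifferentiableOn ℂ g {x | AnalyticAt ℂ g x} :=
      fun x hx => (hx : AnalyticAt ℂ g x).differentiableAt.differentiableWithinAt
    have h2 : DifferentiableOn ℂ (dslope g w) {x | AnalyticAt ℂ g x} :=
      (Complex.differentiableOn_dslope (ho.mem_nhds hwU)).mpr h1
    exact (h2.analyticOnNhd ho).mono (fun z hz => hg z hz)
  have key : ∀ z, ‖z‖ ≤ 1 → g z = tau w z * (dslope g w z * (1 - (starRingEnd ℂ) w * z)) := by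
    intro z hz1
    have h1 := sub_smul_dslope g w z
    rw [hz, sub_zero, smul_eq_mul] at h1
    have h2 := den_ne hw hz1
    rw [tau, ← h1, div_mul_eq_mul_div, eq_div_iff h2]
    ring
  refine ⟨fun z => dslope g w z * (1 - (starRingEnd ℂ) w * z), ?_, ?_, key⟩
  · intro z hz1
    exact (hd z hz1).mul (analyticAt_const.sub (analyticAt_const.mul analyticAt_id))
  · intro z hz1
    have h1 := key z hz1.le
    have h2 := hu z hz1
    rw [h1, norm_mul, tau_uni hw hz1, one_mul] at h2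
    exact h2

/-- the induction -/
theorem fac_aux (z₀ : ℂ) (hz₀ : ‖z₀‖ < 1) (ρ : ℝ) (hρ : 0 < ρ) (n : ℕ) :
    ∀ g : ℂ → ℂ, AnalyticOnNhd ℂ g (closedBall 0 1) → (∀ z, ‖z‖ = 1 → ‖g z‖ = 1) →
      (∀ w, ‖w‖ ≤ 1 → g w = 0 → ‖tau w z₀‖ ≤ ρ) → ρ ^ n < ‖g z₀‖ →
      ∃ (Z : Multiset ℂ) (l : ℂ), ‖l‖ = 1 ∧ (∀ w ∈ Z, ‖w‖ < 1) ∧
        ∀ z, ‖z‖ ≤ 1 → g z = l * (Z.map fun w => tau w z).prod := by
  induction n with
  | zero =>
    intro g hg hu _ hn
    exact absurd (max_le hg hu z₀ hz₀.le) (not_le.mpr (by simpa using hn))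
  | succ n ih =>
    intro g hg hu hK hn
    by_cases h0 : ∀ z, ‖z‖ ≤ 1 → g z ≠ 0
    · obtain ⟨h1, h2⟩ := const_of_ne hg hu h0
      exact ⟨0, g 0, h1, by simp, fun z hz => by simpa using h2 z hz⟩
    · push Not at h0
      obtain ⟨w, hw, hgw⟩ := h0
      have hw1 : ‖w‖ < 1 := by
        rcases hw.lt_or_eq with h | h
        · exact h
        · have := hu w h
          rw [hgw, norm_zero] at this
          norm_num at this
      obtain ⟨g₂, hg₂, hu₂, hfac⟩ := divide hg hu hw1 hgw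
      obtain ⟨Z, l, hl, hZ, hprod⟩ := ih g₂ hg₂ hu₂ (fun v hv hv0 => hK v hv (by
          rw [hfac v hv, hv0, mul_zero])) (by
        have h1 := hfac z₀ hz₀.le
        rw [h1, norm_mul, pow_succ] at hn
        have h2 : ‖tau w z₀‖ * ‖g₂ z₀‖ ≤ ρ * ‖g₂ z₀‖ :=
          mul_le_mul_of_nonneg_right (hK w hw hgw) (norm_nonneg _)
        have h3 : ρ * ρ ^ n < ρ * ‖g₂ z₀‖ := by linarith
        exact lt_of_mul_lt_mul_left h3 hρ.le)
      refine ⟨w ::ₘ Z, l, hl, ?_, ?_⟩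
      · intro v hv
        rcases Multiset.mem_cons.mp hv with h | h
        · rw [h]; exact hw1
        · exact hZ v h
      · intro z hz
        rw [hfac z hz, hprod z hz, Multiset.map_cons, Multiset.prod_cons]
        ring

/-- an analytic function which is unimodular on the circle is a finite Blaschke product -/
theorem fac_gen {g : ℂ → ℂ} (hg : AnalyticOnNhd ℂ g (closedBall 0 1))
    (hu : ∀ z, ‖z‖ = 1 → ‖g z‖ = 1) :
    ∃ (Z : Multiset ℂ) (l : ℂ), ‖l‖ = 1 ∧ (∀ w ∈ Z, ‖w‖ < 1) ∧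
      ∀ z, ‖z‖ ≤ 1 → g z = l * (Z.map fun w => tau w z).prod := by
  have hcl : closure (ball (0 : ℂ) 1) = closedBall 0 1 := closure_ball 0 one_ne_zero
  have hc : ContinuousOn g (closedBall 0 1) := hg.continuousOn
  -- a point of the open disk at which `g` does not vanish
  obtain ⟨z₀, hz₀, hgz₀⟩ : ∃ z₀, ‖z₀‖ < 1 ∧ g z₀ ≠ 0 := by
    by_contra hcon
    push Not at hcon
    have h1 : EqOn g (fun _ => (0 : ℂ)) (ball 0 1) := fun z hz => hcon z (by simpa using hz)
    have h2 : EqOn g (fun _ => (0 : ℂ)) (closedBall 0 1) :=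
      h1.of_subset_closure hc continuousOn_const ball_subset_closedBall (by rw [hcl])
    have h3 := h2 (show (1 : ℂ) ∈ closedBall 0 1 by simp)
    have h4 := hu 1 (by simp)
    rw [h3] at h4
    simp at h4
  -- the zeros form a compact subset of the open disk
  obtain ⟨ρ, hρ0, hρ1, hρ⟩ : ∃ ρ : ℝ, 0 < ρ ∧ ρ < 1 ∧ ∀ w, ‖w‖ ≤ 1 → g w = 0 → ‖tau w z₀‖ ≤ ρ := by
    have hzlt : ∀ w, ‖w‖ ≤ 1 → g w = 0 → ‖w‖ < 1 := by
      intro w hw hgw
      rcases hw.lt_or_eq with h | h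
      · exact h
      · have := hu w h
        rw [hgw, norm_zero] at this
        norm_num at this
    have hKc : IsCompact (closedBall (0 : ℂ) 1 ∩ g ⁻¹' {0}) :=
      (isCompact_closedBall 0 1).of_isClosed_subset
        (hc.preimage_isClosed_of_isClosed isClosed_closedBall isClosed_singleton) inter_subset_left
    rcases (closedBall (0 : ℂ) 1 ∩ g ⁻¹' {0}).eq_empty_or_nonempty with hE | hN
    · refine ⟨1 / 2, by norm_num, by norm_num, ?_⟩
      intro w hw hgw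
      have : w ∈ closedBall (0 : ℂ) 1 ∩ g ⁻¹' {0} := ⟨by simpa using hw, by simpa using hgw⟩
      rw [hE] at this
      exact absurd this (by simp)
    · have hcont : ContinuousOn (fun w => ‖tau w z₀‖) (closedBall (0 : ℂ) 1 ∩ g ⁻¹' {0}) := by
        refine ContinuousOn.norm ?_
        unfold tau
        refine ContinuousOn.div (by fun_prop) ?_ ?_
        · exact (continuous_const.sub (Complex.continuous_conj.mul continuous_const)).continuousOn
        · intro w hw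
          exact den_ne (hzlt w (by simpa using hw.1) (by simpa using hw.2)) hz₀.le
      obtain ⟨w₀, hw₀, hmax⟩ := hKc.exists_isMaxOn hN hcont
      have hw₀1 : ‖w₀‖ < 1 := hzlt w₀ (by simpa using hw₀.1) (by simpa using hw₀.2)
      refine ⟨max (1 / 2) ‖tau w₀ z₀‖, lt_of_lt_of_le (by norm_num) (le_max_left _ _),
        max_lt (by norm_num) (tau_lt hw₀1 hz₀), ?_⟩
      intro w hw hgw
      exact (hmax (show w ∈ closedBall (0 : ℂ) 1 ∩ g ⁻¹' {0} from
        ⟨by simpa using hw, by simpa using hgw⟩)).trans (le_max_right _ _)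
  obtain ⟨n, hn⟩ := exists_pow_lt_of_lt_one (norm_pos_iff.mpr hgz₀) hρ1
  exact fac_aux z₀ hz₀ ρ hρ0 n g hg hu hρ hn

/-- **A1** -/
theorem t_fac : S_fac := by
  intro f hf a ha
  have hle := max_le hf.an hf.uni
  have hg : AnalyticOnNhd ℂ (fun z => tau a (f z)) (closedBall 0 1) := by
    intro z hz
    unfold tau
    exact ((hf.an z hz).sub analyticAt_const).div
      (analyticAt_const.sub (analyticAt_const.mul (hf.an z hz)))
      (den_ne ha (hle z (by simpa using hz)))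
  exact fac_gen hg (fun z hz => tau_uni ha (hf.uni z hz))

end Pool.Agent.H95.BP
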